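import Mathlib

namespace Pool.Agent.Lib.MP_1c0d65_gt

open Finset

variable {V : Type} [AddCommGroup V] [Module ℝ V] {B : LinearMap.BilinForm ℝ V}
  {Curve Pt : Type} {c : Curve → V} {pts : Curve → Set Pt}

open Classical in
lemma gen_pts {L : AddSubgroup V} (hL : (L : Set V).Countable) (hc : ∀ C, c C ∈ L)
    (hint : ∀ C, ∃ m : ℤ, B (c C) (c C) = m)
    (pos : ∀ C C', C ≠ C' → ∀ F : Finset Pt, (∀ x ∈ F, x ∈ pts C ∧ x ∈ pts C') →
      (F.card : ℝ) ≤ B (c C) (c C'))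
    (thin : ∀ S : Set Curve, S.Countable → ∀ F : Finset Pt, ∃ x ∉ F, ∀ C ∈ S, x ∉ pts C) (s : ℕ) :
    ∃ F : Finset Pt, F.card = s ∧ ∀ C, (F.filter (· ∈ pts C)).card = 0 ∨
      ((F.filter (· ∈ pts C)).card : ℝ) ≤ B (c C) (c C) + 1 := by
  induction s with
  | zero => exact ⟨∅, rfl, fun C => Or.inl rfl⟩
  | succ s ih =>
    obtain ⟨F, hF, hG⟩ := ih
    let R : Set Curve := {C | B (c C) (c C) + 1 ≤ (F.filter (· ∈ pts C)).card}
    have hR : R.Countable := by
      have h1 : ((L : Set V) ×ˢ (F.powerset : Set (Finset Pt))).Countable :=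
        hL.prod (F.powerset.countable_toSet)
      refine Set.countable_of_injective_of_countable_image
        (f := fun C => (c C, F.filter (· ∈ pts C))) (fun C hC C' hC' e => ?_) (h1.mono ?_)
      · by_contra hne
        simp only [Prod.mk.injEq] at e
        have := pos C C' hne (F.filter (· ∈ pts C)) (fun x hx =>
          ⟨(mem_filter.1 hx).2, by rw [e.2] at hx; exact (mem_filter.1 hx).2⟩)
        rw [← e.1] at this
        have h2 : B (c C) (c C) + 1 ≤ (F.filter (· ∈ pts C)).card := hC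
        linarith
      · rintro _ ⟨C, -, rfl⟩
        exact ⟨hc C, mem_coe.2 (mem_powerset.2 (filter_subset _ _))⟩
    obtain ⟨x, hx, hxR⟩ := thin R hR F
    refine ⟨insert x F, by rw [card_insert_of_notMem hx, hF], fun C => ?_⟩
    by_cases h : x ∈ pts C
    · right
      have h1 : ¬ (B (c C) (c C) + 1 ≤ (F.filter (· ∈ pts C)).card) := fun e => hxR C e h
      obtain ⟨m, hm⟩ := hint C
      rw [filter_insert, if_pos h, card_insert_of_notMem (fun e => hx (mem_filter.1 e).1)]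
      rw [hm] at h1 ⊢
      have h2 : ((F.filter (· ∈ pts C)).card : ℤ) < m + 1 := by exact_mod_cast not_le.1 h1
      have h3 : ((F.filter (· ∈ pts C)).card : ℤ) + 1 ≤ m + 1 := h2
      exact_mod_cast h3
    · rw [filter_insert, if_neg h]; exact hG C

lemma B_sum (x : V) (S : Finset Curve) (f : Curve → ℝ) :
    B x (∑ C ∈ S, f C • c C) = ∑ C ∈ S, f C * B x (c C) := by
  simp [map_sum]

lemma conn (hs : ∀ x y, B x y = B y x)
    (hodge : ∀ x y, 0 < B x x → B x y = 0 → y ≠ 0 → B y y < 0) {ω M : V}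
    (area : ∀ C, 0 < B ω (c C)) {S : Finset Curve} {μ : Curve → ℝ} (hμ : ∀ C ∈ S, 0 < μ C)
    (hM : M = ∑ C ∈ S, μ C • c C) (nef : ∀ C, 0 ≤ B M (c C)) (U : Curve → Prop) {C0 : Curve}
    (h0 : C0 ∈ S) (hU : U C0) (hp : 0 < B M (c C0))
    (cl : ∀ X ∈ S, U X → ∀ Y ∈ S, ¬ U Y → B (c X) (c Y) = 0) : ∀ Y ∈ S, U Y := by
  classical
  set M1 := ∑ C ∈ S.filter U, μ C • c C with h1
  set M2 := ∑ C ∈ S.filter (fun C => ¬ U C), μ C • c C with h2
  have hsum : M = M1 + M2 := by rw [hM, h1, h2, sum_filter_add_sum_filter_not]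
  have h12 : B M1 M2 = 0 := by
    rw [h2, B_sum]
    refine sum_eq_zero fun Y hY => ?_
    rw [hs, h1, B_sum, sum_eq_zero, mul_zero]
    intro X hX
    rw [hs, cl X (mem_filter.1 hX).1 (mem_filter.1 hX).2 Y (mem_filter.1 hY).1 (mem_filter.1 hY).2,
      mul_zero]
  have e1 : B M M1 = B M1 M1 := by
    conv_lhs => rw [hsum]
    rw [map_add, LinearMap.add_apply, hs M2, h12, add_zero]
  have e2 : B M M2 = B M2 M2 := by
    conv_lhs => rw [hsum]
    rw [map_add, LinearMap.add_apply, h12, zero_add]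
  have p1 : 0 < B M1 M1 := by
    rw [← e1, h1, B_sum]
    exact sum_pos' (fun C hC => mul_nonneg (hμ C (mem_filter.1 hC).1).le (nef C))
      ⟨C0, mem_filter.2 ⟨h0, hU⟩, mul_pos (hμ C0 h0) hp⟩
  have p2 : 0 ≤ B M2 M2 := by
    rw [← e2, h2, B_sum]
    exact sum_nonneg fun C hC => mul_nonneg (hμ C (mem_filter.1 hC).1).le (nef C)
  have z : M2 = 0 := by
    by_contra hne
    linarith [hodge M1 M2 p1 h12 hne]
  intro Y hY
  by_contra hn
  have : 0 < B ω M2 := by
    rw [h2, B_sum]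
    exact sum_pos (fun C hC => mul_pos (hμ C (mem_filter.1 hC).1) (area C))
      ⟨Y, mem_filter.2 ⟨hY, hn⟩⟩
  rw [z, map_zero] at this
  exact lt_irrefl _ this

lemma ge_one {C C' : Curve} (h0 : 0 ≤ B (c C) (c C')) (hi : ∃ m : ℤ, B (c C) (c C') = m)
    (h : B (c C) (c C') ≠ 0) : 1 ≤ B (c C) (c C') := by
  obtain ⟨m, hm⟩ := hi
  rw [hm] at h0 h ⊢
  have h1 : 0 ≤ m := by exact_mod_cast h0
  have h2 : m ≠ 0 := by exact_mod_cast h
  have : 1 ≤ m := by omega
  exact_mod_cast this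

/-- two terms of a sum of nonnegative terms -/
lemma two_le_sum [DecidableEq Curve] {S : Finset Curve} {f : Curve → ℝ} (h : ∀ C ∈ S, 0 ≤ f C)
    {X Y : Curve} (hX : X ∈ S) (hY : Y ∈ S) (hne : X ≠ Y) : f X + f Y ≤ ∑ C ∈ S, f C := by
  rw [← sum_pair hne]
  exact sum_le_sum_of_subset_of_nonneg (by
    intro Z hZ; simp only [mem_insert, mem_singleton] at hZ; rcases hZ with rfl | rfl <;> assumption)
    fun C hC _ => h C hC

lemma kernel [FiniteDimensional ℝ V] [DecidableEq Curve] (hs : ∀ x y, B x y = B y x)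
    {S : Finset Curve} (nn : ∀ C C', C ≠ C' → 0 ≤ B (c C) (c C'))
    (hi : ∀ C C', ∃ m : ℤ, B (c C) (c C') = m)
    (two : ∀ X ∈ S, ∑ Y ∈ S.erase X, B (c X) (c Y) ≤ 2) {C0 C1 : Curve} (h0 : C0 ∈ S) (h1 : C1 ∈ S)
    (hne : C1 ≠ C0) (h01 : B (c C0) (c C1) ≠ 0)
    (cn : ∀ U : Curve → Prop, U C0 →
      (∀ X ∈ S, U X → ∀ Y ∈ S, ¬ U Y → B (c X) (c Y) = 0) → ∀ Y ∈ S, U Y) :
    S.card ≤ Module.finrank ℝ V + 2 := by
  let φ : (S → ℝ) →ₗ[ℝ] V × ℝ × ℝ :=
    (Fintype.linearCombination ℝ fun X : S => c X).prod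
      ((LinearMap.proj (⟨C0, h0⟩ : S)).prod (LinearMap.proj (⟨C1, h1⟩ : S)))
  have inj : Function.Injective φ := by
    rw [injective_iff_map_eq_zero]
    intro y hy
    let x : Curve → ℝ := fun C => if h : C ∈ S then y ⟨C, h⟩ else 0
    have hx : ∀ X : S, x X = y X := fun X => by simp [x]
    have e0 : ∑ C ∈ S, x C • c C = 0 := by
      have : ∑ X : S, y X • c X = 0 :=
        (Fintype.linearCombination_apply ℝ (fun X : S => c X) y).symm.trans (congrArg Prod.fst hy)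
      rw [← this, ← sum_coe_sort S]
      exact sum_congr rfl fun X _ => by rw [hx]
    have e1 : x C0 = 0 := (hx ⟨C0, h0⟩).trans (congrArg (fun t => t.2.1) hy)
    have e2 : x C1 = 0 := (hx ⟨C1, h1⟩).trans (congrArg (fun t => t.2.2) hy)
    have step : ∀ X ∈ S, ∀ W ∈ S, W ≠ X → B (c X) (c W) ≠ 0 → x X = 0 → x W = 0 →
        ∀ Y ∈ S, B (c X) (c Y) ≠ 0 → x Y = 0 := by
      intro X hX W hW hWX hB hX0 hW0 Y hY hY0
      by_contra hc
      have hYX : Y ≠ X := fun e => hc (e ▸ hX0)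
      have hYW : Y ≠ W := fun e => hc (e ▸ hW0)
      have t := congrArg (B (c X)) e0
      rw [B_sum, map_zero, sum_eq_single_of_mem Y hY] at t
      · exact mul_ne_zero hc hY0 t
      intro Z hZ hZY
      by_cases a1 : Z = X
      · rw [a1, hX0, zero_mul]
      by_cases a2 : Z = W
      · rw [a2, hW0, zero_mul]
      by_cases a3 : B (c X) (c Z) = 0
      · rw [a3, mul_zero]
      exfalso
      have b1 := ge_one (nn X W hWX.symm) (hi _ _) hB
      have b2 := ge_one (nn X Y hYX.symm) (hi _ _) hY0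
      have b3 := ge_one (nn X Z (Ne.symm a1)) (hi _ _) a3
      have b4 := two X hX
      rw [← add_sum_erase _ _ (mem_erase.2 ⟨hWX, hW⟩)] at b4
      have b5 := two_le_sum (S := (S.erase X).erase W) (f := fun Y => B (c X) (c Y))
        (fun C hC => nn _ _ (mem_erase.1 (mem_erase.1 hC).2).1.symm)
        (mem_erase.2 ⟨hYW, mem_erase.2 ⟨hYX, hY⟩⟩) (mem_erase.2 ⟨a2, mem_erase.2 ⟨a1, hZ⟩⟩)
        (Ne.symm hZY)
      linarith
    have all := cn (fun X => x X = 0 ∧ ∀ Y ∈ S, B (c X) (c Y) ≠ 0 → x Y = 0)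
      ⟨e1, step C0 h0 C1 h1 hne h01 e1 e2⟩ (fun X hX hU Y hY hn => by
        by_contra hB
        have hXY : X ≠ Y := fun e => hn (e ▸ hU)
        have hy0 := hU.2 Y hY hB
        exact hn ⟨hy0, step Y hY X hX hXY (by rwa [hs]) hy0 hU.1⟩)
    funext X
    rw [← hx]
    exact (all X X.2).1
  have := LinearMap.finrank_le_finrank_of_injective inj
  simpa [Module.finrank_prod, add_assoc] using this

end Pool.Agent.Lib.MP_1c0d65_gt
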