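import Pool.Agent.Lib.MP_1c0d65_gt.Core

namespace Pool.Agent.Lib.MP_1c0d65_gt

open Finset

variable {V : Type} [AddCommGroup V] [Module ℝ V] {B : LinearMap.BilinForm ℝ V}
  {Curve Pt : Type} {c : Curve → V} {pts : Curve → Set Pt}

open Classical in
theorem core [FiniteDimensional ℝ V] (hs : ∀ x y, B x y = B y x)
    (hodge : ∀ x y, 0 < B x x → B x y = 0 → y ≠ 0 → B y y < 0) {K ω M : V}
    (area : ∀ C, 0 < B ω (c C)) (hi : ∀ C C', ∃ m : ℤ, B (c C) (c C') = m)
    (adj : ∀ C, ∃ g : ℕ, B (c C) (c C) + B K (c C) = 2 * g - 2)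
    (nn : ∀ C C', C ≠ C' → 0 ≤ B (c C) (c C'))
    {E : Finset Curve} {d : Curve → ℝ} (hd : ∀ C, 0 ≤ d C ∧ d C < 1) (hd0 : ∀ C ∉ E, d C = 0)
    (hM : M = -K - ∑ C ∈ E, d C • c C) (hME : ∀ C ∈ E, B M (c C) = 0)
    (hMC : ∀ C ∉ E, 0 < B M (c C)) (hMM : 0 < B M M) (hneg : ∀ C ∈ E, B (c C) (c C) < 0)
    {n : ℕ} (hn : n ≤ E.card) (hE : E.card ≤ Module.finrank ℝ V)
    (hA : B (-K - ∑ C ∈ E, c C) (∑ C ∈ E, c C) = 2 * n)
    {F : Finset Pt} (hF : B M M ≤ F.card)
    (gen : ∀ C, (F.filter (· ∈ pts C)).card = 0 ∨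
      ((F.filter (· ∈ pts C)).card : ℝ) ≤ B (c C) (c C) + 1)
    (a : Curve →₀ ℕ) (ha : (a.sum fun C m => (m : ℝ) • c C) = -K - ∑ C ∈ E, c C)
    (thr : ∀ x ∈ F, ∃ C ∈ a.support, x ∈ pts C) :
    n + E.card ≤ Module.finrank ℝ V + 2 := by
  set S := a.support ∪ E with hS
  have hES : E ⊆ S := subset_union_right
  let m : Curve → ℕ := fun C => a C + if C ∈ E then 1 else 0
  have m1 : ∀ C ∈ S, (1 : ℝ) ≤ m C := fun C hC => by
    have : 1 ≤ m C := by
      simp only [m]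
      rcases mem_union.1 hC with h | h
      · have := Finsupp.mem_support_iff.1 h; omega
      · rw [if_pos h]; omega
    exact_mod_cast this
  have hD : ∑ C ∈ S, (m C : ℝ) • c C = -K := by
    have h1 : ∑ C ∈ S, (a C : ℝ) • c C = -K - ∑ C ∈ E, c C := by
      rw [← ha, Finsupp.sum_of_support_subset a subset_union_left _ (by simp)]
    have h2 : ∑ C ∈ S, (if C ∈ E then (1 : ℝ) else 0) • c C = ∑ C ∈ E, c C := by
      rw [← sum_subset hES (fun C _ h => by simp [h])]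
      exact sum_congr rfl fun C h => by simp [h]
    have : ∀ C, (m C : ℝ) • c C = (a C : ℝ) • c C + (if C ∈ E then (1 : ℝ) else 0) • c C :=
      fun C => by rw [← add_smul]; simp [m]
    rw [sum_congr rfl fun C _ => this C, sum_add_distrib, h1, h2]; abel
  have nef : ∀ C, 0 ≤ B M (c C) := fun C => by
    by_cases h : C ∈ E
    · exact (hME C h).ge
    · exact (hMC C h).le
  have hM' : M = ∑ C ∈ S, ((m C : ℝ) - d C) • c C := by
    simp only [sub_smul, sum_sub_distrib, hD]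
    rw [hM, sum_subset hES (fun C _ h => by simp [hd0 C h])]
  have w : ∀ C ∈ S, (m C - 1) * B (c C) (c C) + ∑ X ∈ S.erase C, m X * B (c C) (c X) =
      -B K (c C) - B (c C) (c C) := fun C hC => by
    have := congrArg (B (c C)) hD
    rw [B_sum, ← add_sum_erase _ _ hC, map_neg, hs (c C) K] at this
    linarith
  have w2 : ∀ C ∈ S, (m C - 1) * B (c C) (c C) + ∑ X ∈ S.erase C, m X * B (c C) (c X) ≤ 2 :=
    fun C hC => by
      obtain ⟨g, hg⟩ := adj C
      have : (0 : ℝ) ≤ g := Nat.cast_nonneg g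
      rw [w C hC]; linarith
  have tn : ∀ C, ∀ X ∈ S.erase C, 0 ≤ (m X : ℝ) * B (c C) (c X) := fun C X hX =>
    mul_nonneg (Nat.cast_nonneg _) (nn _ _ (mem_erase.1 hX).1.symm)
  -- the curve C
  obtain ⟨C, hC, hCt⟩ : ∃ C ∈ S \ E, B M (c C) ≤ (F.filter (· ∈ pts C)).card := by
    by_contra hc
    push Not at hc
    have cov : F ⊆ (S \ E).biUnion fun C => F.filter (· ∈ pts C) := fun x hx => by
      obtain ⟨C, h1, h2⟩ := thr x hx
      have hm : x ∈ F.filter (· ∈ pts C) := mem_filter.2 ⟨hx, h2⟩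
      refine mem_biUnion.2 ⟨C, mem_sdiff.2 ⟨mem_union_left _ h1, fun h => ?_⟩, hm⟩
      have h3 : 1 ≤ (F.filter (· ∈ pts C)).card := card_pos.2 ⟨x, hm⟩
      have h4 : (1 : ℝ) ≤ (F.filter (· ∈ pts C)).card := by exact_mod_cast h3
      rcases gen C with h5 | h5
      · omega
      · linarith [hneg C h]
    have h1 : (F.card : ℝ) ≤ ∑ C ∈ S \ E, ((F.filter (· ∈ pts C)).card : ℝ) := by
      exact_mod_cast (card_le_card cov).trans card_biUnion_le
    have h2 : B M M = ∑ C ∈ S \ E, (m C : ℝ) * B M (c C) := by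
      conv_lhs => enter [2]; rw [hM']
      rw [B_sum, ← sum_subset (sdiff_subset (s := S) (t := E)) (fun C h1 h2 => by
        rw [hME C (by simpa [h1] using h2), mul_zero])]
      exact sum_congr rfl fun C h => by rw [hd0 C (mem_sdiff.1 h).2, sub_zero]
    have ne : (S \ E).Nonempty := by
      by_contra h
      rw [not_nonempty_iff_eq_empty.1 h, sum_empty] at h2
      linarith
    have h3 : ∑ C ∈ S \ E, ((F.filter (· ∈ pts C)).card : ℝ) < ∑ C ∈ S \ E, (m C : ℝ) * B M (c C) :=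
      sum_lt_sum_of_nonempty ne fun C h => (hc C h).trans_le
        (le_mul_of_one_le_left (nef C) (m1 C (mem_sdiff.1 h).1))
    linarith
  obtain ⟨hCS, hCE⟩ := mem_sdiff.1 hC
  have cn : ∀ U : Curve → Prop, U C →
      (∀ X ∈ S, U X → ∀ Y ∈ S, ¬ U Y → B (c X) (c Y) = 0) → ∀ Y ∈ S, U Y := fun U hU cl =>
    conn hs hodge area (fun X hX => by linarith [m1 X hX, (hd X).2]) hM' nef U hCS hU (hMC C hCE) cl
  have t1 : ((F.filter (· ∈ pts C)).card : ℝ) ≤ B (c C) (c C) + 1 := by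
    rcases gen C with h | h
    · rw [h] at hCt; have := hMC C hCE; simp only [Nat.cast_zero] at hCt; linarith
    · exact h
  have c0 : 0 ≤ B (c C) (c C) := by
    have h1 : (0 : ℝ) < (F.filter (· ∈ pts C)).card := (hMC C hCE).trans_le hCt
    have h2 : 1 ≤ (F.filter (· ∈ pts C)).card := by exact_mod_cast h1
    have h3 : (1 : ℝ) ≤ (F.filter (· ∈ pts C)).card := by exact_mod_cast h2
    linarith
  have c1 : 0 ≤ ((m C : ℝ) - 1) * B (c C) (c C) := mul_nonneg (by linarith [m1 C hCS]) c0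
  have mc : B M (c C) = -B K (c C) - ∑ X ∈ E, d X * B (c C) (c X) := by
    rw [hs, hM, map_sub, map_neg, B_sum, hs (c C) K]
  have nE : ∀ X ∈ E, 0 ≤ B (c C) (c X) := fun X hX => nn _ _ fun e => hCE (e ▸ hX)
  have hEe : E ⊆ S.erase C := fun X hX => mem_erase.2 ⟨fun e => hCE (e ▸ hX), hES hX⟩
  obtain ⟨g, hg⟩ := adj C
  rcases Nat.eq_zero_or_pos g with g0 | g0
  swap
  · have g1 : (1 : ℝ) ≤ g := by exact_mod_cast g0
    have z : ∑ X ∈ S.erase C, m X * B (c C) (c X) = 0 :=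
      le_antisymm (by linarith [w C hCS]) (sum_nonneg (tn C))
    have all := cn (· = C) rfl fun X _ e Y hY hn => by
      have := (sum_eq_zero_iff_of_nonneg (tn C)).1 z Y (mem_erase.2 ⟨hn, hY⟩)
      rw [e]
      exact (mul_eq_zero.1 this).resolve_left (by linarith [m1 Y hY])
    have : E = ∅ := eq_empty_of_forall_notMem fun X hX => hCE (all X (hES hX) ▸ hX)
    rw [this] at hn ⊢
    simp at hn ⊢
    omega
  rw [g0] at hg
  simp only [Nat.cast_zero, mul_zero, zero_sub] at hg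
  have d1 : 1 ≤ ∑ X ∈ E, d X * B (c C) (c X) := by linarith
  obtain ⟨C1, hC1, hB1⟩ : ∃ X ∈ E, B (c C) (c X) ≠ 0 := by
    by_contra h
    push Not at h
    rw [sum_eq_zero fun X hX => by rw [h X hX, mul_zero]] at d1
    linarith
  have tau : 2 ≤ ∑ X ∈ E, B (c C) (c X) := by
    have h1 : ∑ X ∈ E, d X * B (c C) (c X) < ∑ X ∈ E, B (c C) (c X) :=
      sum_lt_sum (fun X hX => mul_le_of_le_one_left (nE X hX) (hd X).2.le)
        ⟨C1, hC1, mul_lt_of_lt_one_left (lt_of_le_of_ne (nE C1 hC1) hB1.symm) (hd C1).2⟩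
    choose f hf using hi C
    have h2 : ∑ X ∈ E, B (c C) (c X) = ((∑ X ∈ E, f X : ℤ) : ℝ) := by
      push_cast; exact sum_congr rfl fun X _ => hf X
    rw [h2] at h1 ⊢
    have h3 : (1 : ℤ) < ∑ X ∈ E, f X := by exact_mod_cast d1.trans_lt h1
    have h4 : (2 : ℤ) ≤ ∑ X ∈ E, f X := h3
    exact_mod_cast h4
  have spl : ∑ X ∈ S.erase C, ((m X : ℝ) - if X ∈ E then 1 else 0) * B (c C) (c X) =
      ∑ X ∈ S.erase C, m X * B (c C) (c X) - ∑ X ∈ E, B (c C) (c X) := by
    simp only [sub_mul, sum_sub_distrib]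
    congr 1
    rw [← sum_subset hEe (fun X _ h => by simp [h])]
    exact sum_congr rfl fun X h => by simp [h]
  have tn' : ∀ X ∈ S.erase C, 0 ≤ ((m X : ℝ) - if X ∈ E then 1 else 0) * B (c C) (c X) :=
    fun X hX => mul_nonneg (by have := m1 X (mem_erase.1 hX).2; split_ifs <;> linarith)
      (nn _ _ (mem_erase.1 hX).1.symm)
  have s0 := sum_nonneg tn'
  have w0 := w2 C hCS
  have nb : ∀ X ∈ S, X ≠ C → B (c C) (c X) ≠ 0 → X ∈ E ∧ (m X : ℝ) = 1 := fun X hX hne hB => by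
    have := (sum_eq_zero_iff_of_nonneg tn').1 (le_antisymm (by linarith) s0) X
      (mem_erase.2 ⟨hne, hX⟩)
    have h1 := (mul_eq_zero.1 this).resolve_right hB
    have h2 := m1 X hX
    split_ifs at h1 with h
    · exact ⟨h, by linarith⟩
    · linarith
  by_cases hm : (m C : ℝ) = 1
  · have all := cn (fun X => (m X : ℝ) = 1 ∧ ∀ Y ∈ S, Y ≠ X → B (c X) (c Y) ≠ 0 → (m Y : ℝ) = 1)
      ⟨hm, fun Y hY hne hB => (nb Y hY hne hB).2⟩ fun X hX hU Y hY hnU => by
        by_contra hB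
        have hXY : X ≠ Y := fun e => hnU (e ▸ hU)
        have y1 := hU.2 Y hY hXY.symm hB
        refine hnU ⟨y1, fun Z hZ hZY hB' => ?_⟩
        by_cases hZX : Z = X
        · rw [hZX]; exact hU.1
        have b0 := w2 Y hY
        have b1 := two_le_sum (f := fun X => (m X : ℝ) * B (c Y) (c X)) (tn Y)
          (mem_erase.2 ⟨hXY, hX⟩) (mem_erase.2 ⟨hZY, hZ⟩) (Ne.symm hZX)
        have b2 := ge_one (nn Y X hXY.symm) (hi _ _) (by rwa [hs])
        have b3 := ge_one (nn Y Z hZY.symm) (hi _ _) hB'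
        have b4 := m1 Z hZ
        rw [y1] at b0
        rw [hU.1] at b1
        nlinarith
    have two : ∀ X ∈ S, ∑ Y ∈ S.erase X, B (c X) (c Y) ≤ 2 := fun X hX => by
      have := w2 X hX
      rw [(all X hX).1, sum_congr rfl fun Y hY => by rw [(all Y (mem_erase.1 hY).2).1, one_mul]]
        at this
      linarith
    have k := kernel hs nn hi two hCS (hES hC1) (fun e => hCE (e ▸ hC1)) hB1 cn
    have hAe : -K - ∑ X ∈ E, c X = ∑ X ∈ S \ E, c X := by
      rw [← hD, sum_congr rfl fun X hX => by rw [(all X hX).1, one_smul], ← sum_sdiff hES]; abel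
    have h2 : (2 * n : ℝ) ≤ ∑ _X ∈ S \ E, (2 : ℝ) := by
      rw [← hA, hAe, map_sum B, LinearMap.sum_apply]
      refine sum_le_sum fun X hX => ?_
      obtain ⟨x1, x2⟩ := mem_sdiff.1 hX
      rw [map_sum]
      have sub : E ⊆ S.erase X := fun Y hY => mem_erase.2 ⟨fun e => x2 (e ▸ hY), hES hY⟩
      exact (sum_le_sum_of_subset_of_nonneg sub
        fun Y hY _ => nn _ _ (mem_erase.1 hY).1.symm).trans (two X x1)
    rw [sum_const, nsmul_eq_mul] at h2
    have h3 : n ≤ (S \ E).card := by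
      have : (n : ℝ) ≤ (S \ E).card := by linarith
      exact_mod_cast this
    have h4 := card_sdiff_add_card_eq_card hES
    omega
  · have m2 : (2 : ℝ) ≤ m C := by
      have h1 : 1 ≤ m C := by exact_mod_cast m1 C hCS
      have h2 : m C ≠ 1 := by exact_mod_cast hm
      have : 2 ≤ m C := by omega
      exact_mod_cast this
    have all := cn (fun X => X = C ∨ B (c C) (c X) ≠ 0) (Or.inl rfl) fun X hX hU Y hY hnU => by
      push Not at hnU
      by_cases e : X = C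
      · rw [e]; exact hnU.2
      have hB := hU.resolve_left e
      have hXY : Y ≠ X := fun e => hB (e ▸ hnU.2)
      have b0 := w2 X hX
      have b1 := two_le_sum (f := fun Z => (m Z : ℝ) * B (c X) (c Z)) (tn X)
        (mem_erase.2 ⟨Ne.symm e, hCS⟩) (mem_erase.2 ⟨hXY, hY⟩) hnU.1.symm
      have b2 := ge_one (nn X C e) (hi _ _) (by rwa [hs])
      have b3 := nn X Y hXY.symm
      have b4 := m1 Y hY
      rw [(nb X hX e hB).2] at b0
      refine le_antisymm ?_ b3
      nlinarith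
    have h1 : ∑ _X ∈ E, (1 : ℝ) ≤ ∑ X ∈ E, B (c C) (c X) := sum_le_sum fun X hX =>
      ge_one (nE X hX) (hi _ _) ((all X (hES hX)).resolve_left fun e => hCE (e ▸ hX))
    rw [sum_const, nsmul_eq_mul, mul_one] at h1
    have h2 : E.card ≤ 2 := by
      have : (E.card : ℝ) ≤ 2 := by linarith
      exact_mod_cast this
    omega

end Pool.Agent.Lib.MP_1c0d65_gt
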