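import Mathlib

namespace Pool.Agent.Lib.MP_1c0d65_gt

/-- b 0, ..., b (l-1) is the Hirzebruch-Jung continued fraction of p^2 / (p q - 1) for some coprime
0 < q < p; a j are the successive remainders. -/
def IsWahl (l : ℕ) (b : ℕ → ℤ) : Prop :=
  ∃ (p q : ℤ) (a : ℕ → ℤ), 0 < q ∧ q < p ∧ IsCoprime p q ∧ a 0 = p ^ 2 ∧ a 1 = p * q - 1 ∧
    a (l + 1) = 0 ∧ ∀ j < l, 2 ≤ b j ∧ a (j + 2) = b j * a (j + 1) - a j

end Pool.Agent.Lib.MP_1c0d65_gt
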