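import Pool.Agent.Lib.MP_1c0d65_gt.Defs

namespace Pool.Agent.Lib.MP_1c0d65_gt

open Finset

lemma minp (l : ℕ) (b z : ℕ → ℝ) (hb : ∀ j < l, 2 ≤ b j) (h0 : 0 ≤ z 0) (h1 : 0 ≤ z (l + 1))
    (h : ∀ j < l, z j + z (j + 2) ≤ b j * z (j + 1)) : ∀ j ≤ l + 1, 0 ≤ z j := by
  classical
  obtain ⟨m0, hm0, hmin0⟩ := exists_min_image (range (l + 2)) z ⟨0, by simp⟩
  have hex : ∃ m, m < l + 2 ∧ z m = z m0 := ⟨m0, mem_range.1 hm0, rfl⟩
  have hm := Nat.find_spec hex
  have hleast := fun k => Nat.find_min hex (m := k)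
  set m := Nat.find hex
  by_contra hcon
  push Not at hcon
  obtain ⟨j, hj, hz⟩ := hcon
  have hneg : z m < 0 := by
    have := hmin0 j (mem_range.2 (by omega))
    rw [hm.2]; linarith
  have e0 : m ≠ 0 := fun e => by rw [e] at hneg; linarith
  have e1 : m ≠ l + 1 := fun e => by rw [e] at hneg; linarith
  obtain ⟨k, hk⟩ : ∃ k, m = k + 1 := ⟨m - 1, by omega⟩
  have hkl : k < l := by omega
  have a1 := hmin0 k (mem_range.2 (by omega))
  have a2 := hmin0 (k + 2) (mem_range.2 (by omega))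
  have a3 : z k ≠ z m0 := fun e => hleast k (by omega) ⟨by omega, e⟩
  have a4 : z m0 < z k := lt_of_le_of_ne a1 (Ne.symm a3)
  have a5 := h k hkl
  have a6 := hb k hkl
  rw [← hk, hm.2] at a5
  rw [hm.2] at hneg
  nlinarith

def be (b : ℕ → ℤ) : ℕ → ℤ
  | 0 => 0
  | 1 => 1
  | (j + 2) => b j * be b (j + 1) - be b j

lemma be_mono {l : ℕ} {b : ℕ → ℤ} (hb : ∀ j < l, 2 ≤ b j) :
    ∀ j ≤ l, 0 ≤ be b j ∧ be b j < be b (j + 1) := by
  intro j
  induction j with
  | zero => intro _; simp [be]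
  | succ j ih =>
    intro hj
    obtain ⟨h1, h2⟩ := ih (by omega)
    have := hb j (by omega)
    refine ⟨by linarith, ?_⟩
    show be b (j + 1) < b j * be b (j + 1) - be b j
    nlinarith

lemma wahl_disc {l : ℕ} {b : ℕ → ℤ} (h : IsWahl l b) :
    1 ≤ l ∧ (∀ j < l, 2 ≤ b j) ∧ ∃ γ : ℕ → ℝ, γ 0 = 1 ∧ γ (l + 1) = 1 ∧ γ 1 + γ l = 1 ∧
      ∀ j < l, γ (j + 2) = b j * γ (j + 1) - γ j ∧ 0 < γ (j + 1) ∧ γ (j + 1) ≤ 1 := by
  obtain ⟨p, q, a, hq, hqp, -, a0, a1, al, hr⟩ := h
  have hb : ∀ j < l, 2 ≤ b j := fun j hj => (hr j hj).1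
  have hl : 1 ≤ l := by
    by_contra hc
    have : l = 0 := by omega
    subst this
    rw [zero_add, a1] at al
    nlinarith
  have W : ∀ j ≤ l, a j * be b (j + 1) - a (j + 1) * be b j = p ^ 2 := by
    intro j
    induction j with
    | zero => intro _; simp [be, a0]
    | succ j ih =>
      intro hj
      have := ih (by omega)
      show a (j + 1) * (b j * be b (j + 1) - be b j) - a (j + 2) * be b (j + 1) = _
      rw [(hr j (by omega)).2]; linarith
  have C : ∀ j ≤ l, p ^ 2 ∣ a j - (p * q - 1) * be b j ∧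
      p ^ 2 ∣ a (j + 1) - (p * q - 1) * be b (j + 1) := by
    intro j
    induction j with
    | zero => intro _; simp [be, a0, a1]
    | succ j ih =>
      intro hj
      obtain ⟨h1, h2⟩ := ih (by omega)
      refine ⟨h2, ?_⟩
      show _ ∣ a (j + 2) - (p * q - 1) * (b j * be b (j + 1) - be b j)
      rw [(hr j (by omega)).2]
      exact (dvd_sub (h2.mul_left (b j)) h1).trans (dvd_of_eq (by ring))
  have inv : ∀ x : ℤ, p ^ 2 ∣ (p * q - 1) * x → p ^ 2 ∣ x := fun x hx => by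
    have h1 := hx.mul_left (p * (p - q) - 1)
    have h2 : p ^ 2 ∣ p ^ 2 * ((q * (p - q) - 1) * x) := Dvd.intro _ rfl
    exact (dvd_sub h1 h2).trans (dvd_of_eq (by ring))
  obtain ⟨m1, m2⟩ := be_mono hb l le_rfl
  obtain ⟨c1, c2⟩ := C l le_rfl
  have w := W l le_rfl
  rw [al] at w c2
  have hp : 0 < p := by linarith
  have hp2 : 0 < p ^ 2 := by positivity
  obtain ⟨k, hk⟩ := inv _ (by simpa using c2)
  have hk0 : 0 < k := by
    by_contra hc
    have : p ^ 2 * k ≤ 0 := mul_nonpos_of_nonneg_of_nonpos hp2.le (by linarith)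
    linarith
  have hak : a l * k = 1 := by
    have : p ^ 2 * (a l * k) = p ^ 2 * 1 := by rw [hk] at w; linarith
    exact mul_left_cancel₀ hp2.ne' this
  have hk1 : k = 1 := Int.eq_one_of_mul_eq_one_left hk0.le hak
  have hal : a l = 1 := by rw [hk1] at hak; simpa using hak
  have hbl : be b (l + 1) = p ^ 2 := by rw [hk, hk1, mul_one]
  have hbl' : be b l = p * (p - q) - 1 := by
    have h1 : p ^ 2 ∣ be b l - (p * (p - q) - 1) := inv _ (by
      rw [hal] at c1
      have h2 : p ^ 2 ∣ p ^ 2 * (q * (p - q) - 1) := Dvd.intro _ rfl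
      exact (dvd_add c1 h2).neg_right.trans (dvd_of_eq (by ring)))
    have h2 : 0 ≤ p * (p - q) - 1 := by nlinarith
    have h3 : p * (p - q) - 1 < p ^ 2 := by nlinarith
    have := Int.eq_zero_of_abs_lt_dvd h1 (abs_lt.2 ⟨by linarith, by linarith⟩)
    linarith
  have hpR : (0 : ℝ) < p := by exact_mod_cast hp
  have hbR : ∀ j < l, (2 : ℝ) ≤ (b j : ℝ) := fun j hj => by exact_mod_cast hb j hj
  have hrR : ∀ j < l, (a (j + 2) : ℝ) = b j * a (j + 1) - a j := fun j hj => by
    exact_mod_cast (hr j hj).2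
  have hbe : ∀ j, (be b (j + 2) : ℝ) = b j * be b (j + 1) - be b j := fun j => by
    have : be b (j + 2) = b j * be b (j + 1) - be b j := rfl
    exact_mod_cast this
  have apos := minp l (fun j => b j) (fun j => a j) hbR (by rw [a0]; positivity)
    (by rw [al]; simp) (fun j hj => by rw [hrR j hj]; linarith)
  let γ : ℕ → ℝ := fun j => (a j + be b j) / p ^ 2
  have g0 : γ 0 = 1 := by simp only [γ, a0, be]; push_cast; field_simp; ring
  have g1 : γ (l + 1) = 1 := by simp only [γ, al, hbl]; push_cast; field_simp; ring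
  have gr : ∀ j < l, γ (j + 2) = b j * γ (j + 1) - γ j := fun j hj => by
    simp only [γ]; rw [hrR j hj, hbe j]; field_simp; ring
  have gle := minp l (fun j => b j) (fun j => 1 - γ j) hbR (by rw [g0]; simp) (by rw [g1]; simp)
    (fun j hj => by rw [gr j hj]; have := hbR j hj; linarith)
  refine ⟨hl, hb, γ, g0, g1, ?_, fun j hj => ⟨gr j hj, ?_, by have := gle (j + 1) (by omega); linarith⟩⟩
  · simp only [γ, a1, hal, hbl', be]; push_cast; field_simp; ring
  · have h1 := apos (j + 1) (by omega)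
    obtain ⟨h2, h3⟩ := be_mono hb j hj.le
    have h4 : (0 : ℝ) < be b (j + 1) := by exact_mod_cast lt_of_le_of_lt h2 h3
    exact div_pos (by linarith) (by positivity)

end Pool.Agent.Lib.MP_1c0d65_gt
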