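import Pool.Agent.Lib.MP_1c0d65_gt.Cyc
import Pool.Agent.Lib.MP_1c0d65_gt.Wahl

namespace Pool.Agent.Lib.MP_1c0d65_gt

open Finset

variable {V : Type} [AddCommGroup V] [Module ℝ V] {B : LinearMap.BilinForm ℝ V}
  {Curve Pt : Type} {c : Curve → V} {pts : Curve → Set Pt}
  {n : ℕ} {l : Fin n → ℕ} {b : Fin n → ℕ → ℤ} {e : Fin n → ℕ → Curve}

def ext (y : (Σ i, Fin (l i)) → ℝ) (i : Fin n) : ℕ → ℝ
  | 0 => 0
  | (m + 1) => if h : m < l i then y ⟨i, ⟨m, h⟩⟩ else 0

lemma ext_in (y : (Σ i, Fin (l i)) → ℝ) (i : Fin n) {m : ℕ} (h : m < l i) :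
    ext y i (m + 1) = y ⟨i, ⟨m, h⟩⟩ := by simp [ext, h]

lemma ext_out (y : (Σ i, Fin (l i)) → ℝ) (i : Fin n) {m : ℕ} (h : l i ≤ m) :
    ext y i (m + 1) = 0 := by simp [ext, not_lt.2 h]

lemma pair (he : ∀ i i' j j', j < l i → j' < l i' → B (c (e i j)) (c (e i' j')) =
      if i = i' ∧ j = j' then -(b i j : ℝ) else if i = i' ∧ (j + 1 = j' ∨ j' + 1 = j) then 1 else 0)
    (y : (Σ i, Fin (l i)) → ℝ) (i : Fin n) {k : ℕ} (hk : k < l i) :
    B (∑ x, y x • c (e x.1 x.2)) (c (e i k)) =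
      ext y i k - b i k * ext y i (k + 1) + ext y i (k + 2) := by
  rw [map_sum B, LinearMap.sum_apply, Fintype.sum_sigma, sum_eq_single i]
  · have h1 : ∀ j : Fin (l i), B (y ⟨i, j⟩ • c (e i j)) (c (e i k)) =
        (fun j : ℕ => (if j + 1 = k then ext y i k else 0) -
          (if j = k then b i k * ext y i (k + 1) else 0) +
          (if j = k + 1 then ext y i (k + 2) else 0)) j := fun j => by
      rw [map_smul, LinearMap.smul_apply, he i i j k j.2 hk, smul_eq_mul, ← ext_in y i j.2]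
      by_cases a1 : (j : ℕ) = k
      · simp [a1]; ring
      by_cases a2 : (j : ℕ) + 1 = k
      · have : (j : ℕ) ≠ k + 1 := by omega
        simp [a1, a2, this]
      by_cases a3 : (j : ℕ) = k + 1
      · have : k + 1 + 1 ≠ k := by omega
        simp [a3, this]
      · have : k + 1 ≠ j := fun h => a3 h.symm
        simp [a1, a2, a3, this]
    refine ((sum_congr rfl fun j _ => h1 j).trans (Fin.sum_univ_eq_sum_range (fun j : ℕ =>
      (if j + 1 = k then ext y i k else 0) - (if j = k then b i k * ext y i (k + 1) else 0) +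
          (if j = k + 1 then ext y i (k + 2) else 0)) (l i))).trans ?_
    rw [sum_add_distrib, sum_sub_distrib, sum_ite_eq', sum_ite_eq', if_pos (mem_range.2 hk)]
    congr 1
    · congr 1
      rcases k with _ | k
      · simp [ext]
      · simp only [Nat.add_right_cancel_iff]
        rw [sum_ite_eq', if_pos (mem_range.2 (by omega))]
    · split_ifs with h
      · rfl
      · exact (ext_out y i (by simpa using h)).symm
  · intro i' _ hne
    refine sum_eq_zero fun j _ => ?_
    rw [map_smul, LinearMap.smul_apply, he i' i j k j.2 hk]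
    simp [hne]
  · simp

lemma coef_nonneg (he : ∀ i i' j j', j < l i → j' < l i' → B (c (e i j)) (c (e i' j')) =
      if i = i' ∧ j = j' then -(b i j : ℝ) else if i = i' ∧ (j + 1 = j' ∨ j' + 1 = j) then 1 else 0)
    (hb : ∀ i, ∀ j < l i, 2 ≤ b i j) (y : (Σ i, Fin (l i)) → ℝ)
    (h : ∀ i, ∀ k < l i, B (∑ x, y x • c (e x.1 x.2)) (c (e i k)) ≤ 0) (x : Σ i, Fin (l i)) :
    0 ≤ y x := by
  obtain ⟨i, j⟩ := x
  have := minp (l i) (fun j => b i j) (ext y i) (fun j hj => by exact_mod_cast hb i j hj) le_rfl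
    (ext_out y i le_rfl).ge (fun k hk => by
      have := h i k hk
      rw [pair he y i hk] at this
      linarith) (j + 1) (by omega)
  rwa [ext_in y i j.2] at this

lemma tele (l : ℕ) (γ : ℕ → ℝ) :
    ∑ j ∈ range l, (γ (j + 2) - 2 * γ (j + 1) + γ j) = γ (l + 1) - γ l - γ 1 + γ 0 := by
  induction l with
  | zero => simp
  | succ l ih => rw [sum_range_succ, ih]; ring

theorem main [FiniteDimensional ℝ V] (hs : ∀ x y, B x y = B y x)
    (hodge : ∀ x y, 0 < B x x → B x y = 0 → y ≠ 0 → B y y < 0)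
    {L : AddSubgroup V} (hL : (L : Set V).Countable)
    (hint : ∀ x ∈ L, ∀ y ∈ L, ∃ m : ℤ, B x y = m) {K ω : V} (hK : K ∈ L) (hω : 0 < B ω ω)
    (hc : ∀ C, c C ∈ L) (area : ∀ C, 0 < B ω (c C))
    (adj : ∀ C, ∃ g : ℕ, B (c C) (c C) + B K (c C) = 2 * g - 2)
    (pos : ∀ C C', C ≠ C' → ∀ F : Finset Pt, (∀ x ∈ F, x ∈ pts C ∧ x ∈ pts C') →
      (F.card : ℝ) ≤ B (c C) (c C'))
    (thin : ∀ S : Set Curve, S.Countable → ∀ F : Finset Pt, ∃ x ∉ F, ∀ C ∈ S, x ∉ pts C)
    (ex : ∀ A ∈ L, ∀ F : Finset Pt, 2 * (F.card : ℝ) ≤ B A A - B K A →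
      (∃ a : Curve →₀ ℕ, (a.sum fun C m => (m : ℝ) • c C) = A ∧
        ∀ x ∈ F, ∃ C ∈ a.support, x ∈ pts C) ∨
      ∃ a : Curve →₀ ℕ, (a.sum fun C m => (m : ℝ) • c C) = K - A)
    (hW : ∀ i, IsWahl (l i) (b i))
    (he : ∀ i i' j j', j < l i → j' < l i' → B (c (e i j)) (c (e i' j')) =
      if i = i' ∧ j = j' then -(b i j : ℝ) else if i = i' ∧ (j + 1 = j' ∨ j' + 1 = j) then 1 else 0)
    (hK' : ∀ i, ∀ j < l i, B K (c (e i j)) = b i j - 2) {κ : ℝ} (hκ : 0 < κ)
    (mono : ∀ x, (∀ i, ∀ j < l i, B x (c (e i j)) = 0) → -B K x = κ * B ω x) :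
    n + ∑ i, l i ≤ Module.finrank ℝ V + 2 := by
  classical
  have hl := fun i => (wahl_disc (hW i)).1
  have hb := fun i => (wahl_disc (hW i)).2.1
  choose γ g0 g1 g2 g3 using fun i => (wahl_disc (hW i)).2.2
  let I := Σ i, Fin (l i)
  let ι : I → Curve := fun x => e x.1 x.2
  have nn : ∀ C C', C ≠ C' → 0 ≤ B (c C) (c C') := fun C C' h => by
    simpa using pos C C' h ∅ (by simp)
  have neg : ∀ x : I, B (c (ι x)) (c (ι x)) < 0 := fun x => by
    have : (2 : ℝ) ≤ b x.1 x.2 := by exact_mod_cast hb x.1 x.2 x.2.2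
    simp only [ι]
    rw [he _ _ _ _ x.2.2 x.2.2, if_pos ⟨rfl, rfl⟩]; linarith
  have inj : Function.Injective ι := fun x y h => by
    have h1 := neg x
    conv_lhs at h1 => enter [2]; rw [h]
    simp only [ι] at h1
    rw [he _ _ _ _ x.2.2 y.2.2] at h1
    obtain ⟨i, j⟩ := x
    obtain ⟨i', j'⟩ := y
    split_ifs at h1 with a1 a2
    · obtain ⟨rfl, a⟩ := a1
      exact congrArg _ (Fin.ext a)
    · linarith
    · linarith
  let T : (I → ℝ) →ₗ[ℝ] V := Fintype.linearCombination ℝ fun x => c (ι x)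
  have hT : ∀ y, T y = ∑ x, y x • c (e x.1 x.2) := fun y => Fintype.linearCombination_apply _ _ _
  have BT : ∀ v y, B v (T y) = ∑ x, y x * B v (c (ι x)) := fun v y => by
    rw [hT]; simp [map_sum, ι]
  let Φ : (I → ℝ) →ₗ[ℝ] (I → ℝ) := (LinearMap.pi fun x => B.flip (c (ι x))) ∘ₗ T
  have hΦ : ∀ y x, Φ y x = B (T y) (c (ι x)) := fun _ _ => rfl
  have cnn : ∀ y, (∀ x, B (T y) (c (ι x)) ≤ 0) → ∀ x, 0 ≤ y x := fun y h =>
    coef_nonneg he hb y fun i k hk => by rw [← hT]; exact h ⟨i, ⟨k, hk⟩⟩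
  have Φi : Function.Injective Φ := by
    rw [injective_iff_map_eq_zero]
    intro y hy
    have h0 : ∀ x, B (T y) (c (ι x)) = 0 := fun x => congrFun hy x
    funext x
    have h1 := cnn y (fun x => (h0 x).le) x
    have h2 := cnn (-y) (fun x => by rw [map_neg, map_neg, LinearMap.neg_apply, h0]; simp) x
    exact le_antisymm (by simpa using h2) h1
  have cardI : Fintype.card I = ∑ i, l i := by simp [I]
  have rk : ∑ i, l i ≤ Module.finrank ℝ V := by
    have := LinearMap.finrank_le_finrank_of_injective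
      (f := T) (Function.Injective.of_comp (f := LinearMap.pi fun x => B.flip (c (ι x))) Φi)
    rwa [Module.finrank_fintype_fun_eq_card, cardI] at this
  obtain ⟨δ, hδ⟩ := LinearMap.injective_iff_surjective.1 Φi fun x => -B ω (c (ι x))
  have hδ' : ∀ x, B (T δ) (c (ι x)) = -B ω (c (ι x)) := fun x => congrFun hδ x
  have δ0 := cnn δ fun x => by rw [hδ']; linarith [area (ι x)]
  let γ' : I → ℝ := fun x => γ x.1 (x.2 + 1)
  let d : I → ℝ := fun x => 1 - γ' x
  have extd : ∀ i, ∀ m ≤ l i + 1, ext d i m = 1 - γ i m := fun i m hm => by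
    rcases m with _ | m
    · simp [ext, g0]
    · rcases (Nat.le_of_succ_le_succ hm).lt_or_eq with h | h
      · rw [ext_in d i h]
      · rw [ext_out d i h.ge, h, g1, sub_self]
  have Bd : ∀ x : I, B (T d) (c (ι x)) = 2 - b x.1 x.2 := fun x => by
    have h := x.2.2
    rw [hT, pair he d x.1 h, extd _ _ (by omega), extd _ _ (by omega), extd _ _ (by omega),
      (g3 _ _ h).1]
    ring
  set M := -K - T d with hM
  have ME : ∀ x : I, B M (c (ι x)) = 0 := fun x => by
    rw [hM, map_sub, map_neg, LinearMap.sub_apply, LinearMap.neg_apply, Bd, hK' _ _ x.2.2]; ring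
  have MT : ∀ y, B M (T y) = 0 := fun y => by rw [BT]; simp [ME]
  set W := ω + T δ with hW'
  have WE : ∀ x : I, B W (c (ι x)) = 0 := fun x => by
    rw [hW', map_add, LinearMap.add_apply, hδ']; ring
  have WT : ∀ y, B W (T y) = 0 := fun y => by rw [BT]; simp [WE]
  have WW : 0 < B W W := by
    have h1 : 0 ≤ B ω (T δ) := by
      rw [BT]; exact sum_nonneg fun x _ => mul_nonneg (δ0 x) (area _).le
    have h2 : B W W = B W ω := by
      conv_lhs => enter [2]; rw [hW']
      rw [map_add, WT, add_zero]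
    rw [h2, hs, hW', map_add]; linarith
  have hu : ∀ v, (∀ x : I, B v (c (ι x)) = 0) → B v (M - κ • W) = 0 := fun v hv => by
    have h1 := mono v fun i j hj => hv ⟨i, ⟨j, hj⟩⟩
    have h2 : ∀ y, B v (T y) = 0 := fun y => by rw [BT]; simp [hv]
    rw [hM, hW', map_sub, map_sub, map_neg, map_smul, map_add, h2, h2, hs v K, hs v ω, smul_eq_mul]
    linarith
  have MW : M = κ • W := by
    by_contra h
    have h1 := hodge W _ WW (hu W WE) (sub_ne_zero.2 h)
    rw [hu _ fun x => by rw [map_sub, map_smul, LinearMap.sub_apply, LinearMap.smul_apply, ME, WE]; simp]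
      at h1
    exact lt_irrefl _ h1
  have MM : 0 < B M M := by
    rw [MW, map_smul, map_smul, LinearMap.smul_apply, smul_eq_mul, smul_eq_mul]; positivity
  have MC : ∀ C ∉ univ.image ι, 0 < B M (c C) := fun C hC => by
    have h1 : 0 ≤ B (c C) (T δ) := by
      rw [BT]
      exact sum_nonneg fun x _ => mul_nonneg (δ0 x)
        (nn _ _ fun h => hC (mem_image.2 ⟨x, mem_univ _, h.symm⟩))
    rw [MW, map_smul, LinearMap.smul_apply, smul_eq_mul, hW', map_add, LinearMap.add_apply, hs (T δ)]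
    exact mul_pos hκ (by linarith [area C])
  have nef : ∀ C, 0 ≤ B M (c C) := fun C => by
    by_cases h : C ∈ univ.image ι
    · obtain ⟨x, -, rfl⟩ := mem_image.1 h
      exact (ME x).ge
    · exact (MC C h).le
  have s1 : ∑ x : I, γ' x * ((b x.1 x.2 : ℝ) - 2) = n := by
    rw [Fintype.sum_sigma]
    have : ∀ i, ∑ j : Fin (l i), γ i (j + 1) * ((b i j : ℝ) - 2) = 1 := fun i => by
      rw [Fin.sum_univ_eq_sum_range (fun j => γ i (j + 1) * ((b i j : ℝ) - 2)) (l i),
        sum_congr rfl fun j hj => show _ = γ i (j + 2) - 2 * γ i (j + 1) + γ i j by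
          rw [(g3 i j (mem_range.1 hj)).1]; ring, tele, g0, g1]
      linarith [g2 i]
    simp only [γ', this]; simp
  have extg : ∀ i, ∀ m < l i, ext γ' i (m + 1) = γ i (m + 1) := fun i m h => ext_in γ' i h
  have s2 : B (T γ') (T 1) = -(2 * n) := by
    rw [BT, Fintype.sum_sigma]
    have : ∀ i, ∑ j : Fin (l i), B (T γ') (c (e i j)) = -2 := fun i => by
      have h1 : ∀ j ∈ range (l i), B (T γ') (c (e i j)) =
          -(if j = 0 then 1 else 0) - (if j = l i - 1 then 1 else 0) := fun j hj => by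
        have hj := mem_range.1 hj
        have h2 := (g3 i j hj).1
        rw [hT, pair he γ' i hj, extg i j hj]
        have h3 : ext γ' i j = γ i j - if j = 0 then 1 else 0 := by
          rcases j with _ | j
          · simp [ext, g0]
          · rw [extg i j (by omega)]; simp
        have h4 : ext γ' i (j + 2) = γ i (j + 2) - if j = l i - 1 then 1 else 0 := by
          split_ifs with h
          · rw [ext_out γ' i (by omega), show j + 2 = l i + 1 by omega, g1, sub_self]
          · rw [extg i (j + 1) (by omega), sub_zero]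
        rw [h3, h4, h2]; ring
      have h5 := hl i
      rw [Fin.sum_univ_eq_sum_range (fun j => B (T γ') (c (e i j))) (l i), sum_congr rfl h1,
        sum_sub_distrib, sum_neg_distrib, sum_ite_eq', sum_ite_eq', if_pos (mem_range.2 (by omega)),
        if_pos (mem_range.2 (by omega))]
      ring
    simp only [Pi.one_apply, one_mul, ι, this]; simp; ring
  have s3 : B (T d) (T γ') = -n := by
    rw [BT, ← s1, ← sum_neg_distrib]
    exact sum_congr rfl fun x _ => by rw [Bd]; ring
  have T1 : T 1 = T d + T γ' := by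
    rw [← map_add]; congr 1; funext x; simp [d]
  have s4 : B (T γ') (T γ') = -n := by
    rw [T1, map_add, hs, s3] at s2; linarith
  have hA : -K - T 1 = M - T γ' := by rw [T1, hM]; abel
  have hKM : K = -(M + T d) := by rw [hM]; abel
  have sE : ∑ C ∈ univ.image ι, c C = T 1 := by
    rw [sum_image fun x _ y _ h => inj h, hT]; simp [ι]
  have AL : -K - T 1 ∈ L := by
    rw [← sE]; exact L.sub_mem (L.neg_mem hK) (L.sum_mem fun C _ => hc C)
  have AA : B (-K - T 1) (-K - T 1) - B K (-K - T 1) = 2 * B M M := by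
    rw [hA]
    conv_lhs => enter [2]; rw [hKM]
    simp only [map_sub, map_neg, map_add, LinearMap.sub_apply, LinearMap.neg_apply,
      LinearMap.add_apply]
    rw [hs (T γ') M, hs (T d) M, MT, MT, s3, s4]; ring
  obtain ⟨s, hs'⟩ : ∃ s : ℕ, B M M = s := by
    obtain ⟨k, hk⟩ := hint K hK K hK
    have h1 : B M M = ((k + ∑ x : I, (b x.1 x.2 - 2) - n : ℤ) : ℝ) := by
      have h2 : B M M = B K K + B K (T d) := by
        conv_lhs => enter [2]; rw [hM]
        rw [map_sub, MT, map_neg, hs, hM, map_sub, map_neg]; ring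
      rw [h2, hk, BT]
      push_cast
      rw [← s1, add_sub_assoc, ← sum_sub_distrib]
      congr 1
      exact sum_congr rfl fun x _ => by simp only [ι, d]; rw [hK' _ _ x.2.2]; ring
    rw [h1] at MM ⊢
    have h3 : 0 < k + ∑ x : I, (b x.1 x.2 - 2) - n := by exact_mod_cast MM
    obtain ⟨s, h4⟩ := Int.eq_ofNat_of_zero_le h3.le
    exact ⟨s, by rw [h4]; simp⟩
  have hi : ∀ C C', ∃ m : ℤ, B (c C) (c C') = m := fun C C' => hint _ (hc C) _ (hc C')
  obtain ⟨F, hF, gen⟩ := gen_pts hL hc (fun C => hi C C) pos thin s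
  have cardE : (univ.image ι).card = ∑ i, l i := by
    rw [card_image_of_injective _ inj, card_univ, cardI]
  rcases ex _ AL F (by rw [AA, hs', hF]) with ⟨a, ha, thr⟩ | ⟨a, ha⟩
  · have dx : ∀ x, Function.extend ι d 0 (ι x) = d x := fun x => inj.extend_apply _ _ _
    have d0 : ∀ C ∉ univ.image ι, Function.extend ι d 0 C = 0 := fun C hC =>
      Function.extend_apply' _ _ _ fun ⟨x, hx⟩ => hC (mem_image.2 ⟨x, mem_univ _, hx⟩)
    rw [← cardE]
    refine core hs hodge area hi adj nn (d := Function.extend ι d 0) (M := M) (fun C => ?_) d0 ?_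
      (fun C hC => ?_) MC MM (fun C hC => ?_) ?_ (cardE ▸ rk) ?_ (by rw [hs', hF]) gen a
      (by rw [ha, sE]) thr
    · by_cases h : C ∈ univ.image ι
      · obtain ⟨x, -, rfl⟩ := mem_image.1 h
        have := (g3 x.1 x.2 x.2.2).2
        rw [dx]; simp only [d, γ']; constructor <;> linarith [this.1, this.2]
      · rw [d0 C h]; simp
    · rw [sum_image fun x _ y _ h => inj h, hM, hT]; simp only [dx, ι]
    · obtain ⟨x, -, rfl⟩ := mem_image.1 hC
      exact ME x
    · obtain ⟨x, -, rfl⟩ := mem_image.1 hC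
      exact neg x
    · rw [cardE]
      simpa using sum_le_sum fun i (_ : i ∈ (univ : Finset (Fin n))) => hl i
    · rw [sE, hA, map_sub, LinearMap.sub_apply, MT, s2]; ring
  · exfalso
    have h1 : 0 ≤ B M (K - (-K - T 1)) := by
      rw [← ha, Finsupp.sum, B_sum]
      exact sum_nonneg fun C _ => mul_nonneg (Nat.cast_nonneg _) (nef C)
    rw [hA] at h1
    conv_rhs at h1 => enter [2, 1]; rw [hKM]
    simp only [map_sub, map_neg, map_add, MT] at h1
    linarith

end Pool.Agent.Lib.MP_1c0d65_gt
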